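import Pool.Agent.Lib.MP_c052b4_al.Mg.G081
import Pool.Agent.Lib.MP_c052b4_al.TR.Inj

/-!
# Projective resolutions of length two give resolutions by free permutation modules
-/

set_option autoImplicit false
set_option linter.unusedSectionVars false

namespace Pool.Agent.Lib.MP_c052b4_al

open MulAction

universe u v w

section Swindle

variable {Λ : Type u} [Ring Λ]

/-- finitely supported functions with values in a product -/
noncomputable def prodFs (Λ : Type u) [Ring Λ] (ι M N : Type*) [AddCommGroup M] [AddCommGroup N]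
    [Module Λ M] [Module Λ N] : (ι →₀ M × N) ≃ₗ[Λ] (ι →₀ M) × (ι →₀ N) :=
  LinearEquiv.ofLinearMap
    ((Finsupp.mapRange.linearMap (LinearMap.fst Λ M N)).prod
      (Finsupp.mapRange.linearMap (LinearMap.snd Λ M N)))
    ((Finsupp.mapRange.linearMap (LinearMap.inl Λ M N)).coprod
      (Finsupp.mapRange.linearMap (LinearMap.inr Λ M N)))
    (by ext <;> simp)
    (by ext <;> simp)

/-- the shift -/
noncomputable def shiftFs (Λ : Type u) [Ring Λ] (P : Type*) [AddCommGroup P] [Module Λ P] :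
    (P × (ℕ →₀ P)) ≃ₗ[Λ] (ℕ →₀ P) :=
  ((LinearEquiv.prodCongr (Finsupp.uniqueLinearEquiv Λ P PUnit.unit.{1}).symm
    (LinearEquiv.refl Λ (ℕ →₀ P))).trans
      (Finsupp.sumFinsuppLEquivProdFinsupp (α := PUnit.{1}) (β := ℕ) Λ).symm).trans
    (Finsupp.domLCongr ((Equiv.sumComm PUnit.{1} ℕ).trans Equiv.natSumPUnitEquivNat))

/-- **Eilenberg's swindle.** -/
theorem exists_swindle (P : Type u) [AddCommGroup P] [Module Λ P] [Module.Projective Λ P] :
    ∃ (F : Type u) (_ : AddCommGroup F) (_ : Module Λ F), Module.Free Λ F ∧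
      Module.Free Λ (P × F) := by
  obtain ⟨s, hs⟩ := (Module.projective_def' (R := Λ) (P := P)).1 inferInstance
  set π : (P →₀ Λ) →ₗ[Λ] P := Finsupp.linearCombination Λ id with hπ
  have hs' : ∀ x, π (s x) = x := fun x => LinearMap.congr_fun hs x
  -- the complement
  let e : (P →₀ Λ) ≃ₗ[Λ] P × LinearMap.ker π :=
    LinearEquiv.ofLinearMap (π.prod (LinearMap.codRestrict (LinearMap.ker π)
      (LinearMap.id - s ∘ₗ π) fun x => by
        rw [LinearMap.mem_ker, LinearMap.sub_apply, LinearMap.id_apply, LinearMap.comp_apply,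
          map_sub, hs', sub_self]))
      (s.coprod (LinearMap.ker π).subtype)
      (by
        refine LinearMap.ext fun x => Prod.ext ?_ (Subtype.ext ?_)
        · change π (s x.1 + (x.2 : P →₀ Λ)) = x.1
          rw [map_add, hs', LinearMap.mem_ker.1 x.2.2, add_zero]
        · change (s x.1 + (x.2 : P →₀ Λ)) - s (π (s x.1 + (x.2 : P →₀ Λ))) = x.2
          rw [map_add, hs', LinearMap.mem_ker.1 x.2.2, add_zero, add_sub_cancel_left])
      (by
        refine LinearMap.ext fun x => ?_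
        change s (π x) + (x - s (π x)) = x
        abel)
  refine ⟨ℕ →₀ (P →₀ Λ), inferInstance, inferInstance, inferInstance, ?_⟩
  let E : (ℕ →₀ (P →₀ Λ)) ≃ₗ[Λ] (ℕ →₀ P) × (ℕ →₀ LinearMap.ker π) :=
    (Finsupp.mapRange.linearEquiv e).trans (prodFs Λ ℕ P (LinearMap.ker π))
  let F : (P × (ℕ →₀ (P →₀ Λ))) ≃ₗ[Λ] (ℕ →₀ (P →₀ Λ)) :=
    (((LinearEquiv.refl Λ P).prodCongr E).trans
      ((LinearEquiv.prodAssoc Λ P (ℕ →₀ P) (ℕ →₀ LinearMap.ker π)).symm.trans
        ((shiftFs Λ P).prodCongr (LinearEquiv.refl Λ _)))).trans E.symm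
  exact Module.Free.of_equiv F.symm

end Swindle

section Free

variable (H : Type v) [Group H]

/-- A projective resolution `0 → P₂ → P₁ → P₀ → ℤ → 0` of the trivial module over `ℤ[H]`. -/
structure PjRes (P₀ P₁ P₂ : Type v) [AddCommGroup P₀] [AddCommGroup P₁] [AddCommGroup P₂]
    [Module (MonoidAlgebra ℤ H) P₀] [Module (MonoidAlgebra ℤ H) P₁]
    [Module (MonoidAlgebra ℤ H) P₂] where
  d₁ : P₁ →ₗ[MonoidAlgebra ℤ H] P₀
  d₂ : P₂ →ₗ[MonoidAlgebra ℤ H] P₁
  ε : P₀ →+ ℤ
  invariant : ∀ (h : H) (x : P₀), ε ((MonoidAlgebra.single h 1 : MonoidAlgebra ℤ H) • x) = ε x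
  surjective : Function.Surjective ε
  exact₀ : ∀ x, ε x = 0 ↔ ∃ y, d₁ y = x
  exact₁ : ∀ x, d₁ x = 0 ↔ ∃ y, d₂ y = x
  injective : Function.Injective d₂

/-- the free action on `H × J` -/
@[reducible] def freeAct (J : Type v) : MulAction H (H × J) where
  smul h u := (h * u.1, u.2)
  one_smul _ := Prod.ext (one_mul _) rfl
  mul_smul _ _ _ := Prod.ext (mul_assoc _ _ _) rfl

variable {H}

/-- the basis over the integers -/
noncomputable def zBas {J C : Type v} [AddCommGroup C] [Module (MonoidAlgebra ℤ H) C]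
    (b : Module.Basis J (MonoidAlgebra ℤ H) C) : Module.Basis (H × J) ℤ C :=
  (MonoidAlgebra.basis H ℤ).smulTower b

theorem zBas_apply {J C : Type v} [AddCommGroup C] [Module (MonoidAlgebra ℤ H) C]
    (b : Module.Basis J (MonoidAlgebra ℤ H) C) (u : H × J) :
    zBas b u = (MonoidAlgebra.single u.1 1 : MonoidAlgebra ℤ H) • b u.2 := by
  unfold zBas
  rw [Module.Basis.smulTower_apply, MonoidAlgebra.basis_apply]

/-- the permutation module of a free module -/
noncomputable def phiE {J C : Type v} [AddCommGroup C] [Module (MonoidAlgebra ℤ H) C]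
    (b : Module.Basis J (MonoidAlgebra ℤ H) C) : ((H × J) →₀ ℤ) ≃ₗ[ℤ] C := (zBas b).repr.symm

theorem phiE_single {J C : Type v} [AddCommGroup C] [Module (MonoidAlgebra ℤ H) C]
    (b : Module.Basis J (MonoidAlgebra ℤ H) C) (u : H × J) (n : ℤ) :
    phiE b (Finsupp.single u n) =
      n • ((MonoidAlgebra.single u.1 1 : MonoidAlgebra ℤ H) • b u.2) := by
  unfold phiE
  rw [Module.Basis.repr_symm_single, zBas_apply]

theorem phiE_smul {J C : Type v} [AddCommGroup C] [Module (MonoidAlgebra ℤ H) C]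
    (b : Module.Basis J (MonoidAlgebra ℤ H) C) (h : H) (x : (H × J) →₀ ℤ) :
    phiE b (x.mapDomain fun u => ((h * u.1, u.2) : H × J)) =
      (MonoidAlgebra.single h 1 : MonoidAlgebra ℤ H) • phiE b x := by
  induction x using Finsupp.induction_linear with
  | zero => rw [Finsupp.mapDomain_zero, map_zero, smul_zero]
  | add x y hx hy => rw [Finsupp.mapDomain_add, map_add, map_add, smul_add, hx, hy]
  | single u n =>
    have h1 : ∀ y : C, (MonoidAlgebra.single h 1 : MonoidAlgebra ℤ H) • (n • y) =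
        n • ((MonoidAlgebra.single h 1 : MonoidAlgebra ℤ H) • y) := fun y => smul_comm _ _ _
    rw [Finsupp.mapDomain_single, phiE_single, phiE_single, h1, smul_smul,
      MonoidAlgebra.single_mul_single, one_mul]

variable {C₀ C₁ C₂ : Type v} [AddCommGroup C₀] [AddCommGroup C₁] [AddCommGroup C₂]
    [Module (MonoidAlgebra ℤ H) C₀] [Module (MonoidAlgebra ℤ H) C₁]
    [Module (MonoidAlgebra ℤ H) C₂]

/-- a free resolution with all basis elements of augmentation one -/
noncomputable def PjRes.toPRes (P : PjRes H C₀ C₁ C₂) {J₀ J₁ J₂ : Type v}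
    (b₀ : Module.Basis J₀ (MonoidAlgebra ℤ H) C₀) (b₁ : Module.Basis J₁ (MonoidAlgebra ℤ H) C₁)
    (b₂ : Module.Basis J₂ (MonoidAlgebra ℤ H) C₂) (hb : ∀ j, P.ε (b₀ j) = 1) :
    @PRes H _ (H × J₀) (H × J₁) (H × J₂) (freeAct H J₀) (freeAct H J₁) (freeAct H J₂) :=
  letI : MulAction H (H × J₀) := freeAct H J₀
  letI : MulAction H (H × J₁) := freeAct H J₁
  letI : MulAction H (H × J₂) := freeAct H J₂
  have hε : ∀ x : (H × J₀) →₀ ℤ, (x.sum fun _ n => n) = P.ε (phiE b₀ x) := by
    intro x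
    induction x using Finsupp.induction_linear with
    | zero => rw [Finsupp.sum_zero_index, map_zero, map_zero]
    | add x y hx hy =>
      rw [Finsupp.sum_add_index' (fun _ => rfl) (fun _ _ _ => rfl), hx, hy, map_add, map_add]
    | single u n =>
      rw [Finsupp.sum_single_index rfl, phiE_single, map_zsmul, P.invariant, hb, smul_eq_mul,
        mul_one]
  { d₁ := (phiE b₀).symm.toLinearMap ∘ₗ P.d₁.toAddMonoidHom.toIntLinearMap ∘ₗ
      (phiE b₁).toLinearMap
    d₂ := (phiE b₁).symm.toLinearMap ∘ₗ P.d₂.toAddMonoidHom.toIntLinearMap ∘ₗ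
      (phiE b₂).toLinearMap
    equivariant₁ := by
      intro h x
      apply (phiE b₀).injective
      change phiE b₀ ((phiE b₀).symm (P.d₁ (phiE b₁ (x.mapDomain fun u =>
        ((h * u.1, u.2) : H × J₁))))) = phiE b₀ (((phiE b₀).symm (P.d₁ (phiE b₁ x))).mapDomain
          fun u => ((h * u.1, u.2) : H × J₀))
      rw [LinearEquiv.apply_symm_apply, phiE_smul, phiE_smul, LinearEquiv.apply_symm_apply,
        map_smul]
    equivariant₂ := by
      intro h x
      apply (phiE b₁).injective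
      change phiE b₁ ((phiE b₁).symm (P.d₂ (phiE b₂ (x.mapDomain fun u =>
        ((h * u.1, u.2) : H × J₂))))) = phiE b₁ (((phiE b₁).symm (P.d₂ (phiE b₂ x))).mapDomain
          fun u => ((h * u.1, u.2) : H × J₁))
      rw [LinearEquiv.apply_symm_apply, phiE_smul, phiE_smul, LinearEquiv.apply_symm_apply,
        map_smul]
    nonempty := by
      by_contra hne
      rw [not_nonempty_iff] at hne
      obtain ⟨x, hx⟩ := P.surjective 1
      have h0 : (phiE b₀).symm x = 0 := Subsingleton.elim _ _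
      have h1 : x = 0 := by
        rw [← (phiE b₀).apply_symm_apply x, h0, map_zero]
      rw [h1, map_zero] at hx
      exact absurd hx (by decide)
    exact₀ := by
      intro x
      rw [hε, P.exact₀]
      constructor
      · rintro ⟨y, hy⟩
        refine ⟨(phiE b₁).symm y, ?_⟩
        change (phiE b₀).symm (P.d₁ (phiE b₁ ((phiE b₁).symm y))) = x
        rw [LinearEquiv.apply_symm_apply, hy, LinearEquiv.symm_apply_apply]
      · rintro ⟨y, hy⟩
        refine ⟨phiE b₁ y, ?_⟩
        rw [← hy]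
        exact ((phiE b₀).apply_symm_apply _).symm
    exact₁ := by
      intro x
      have h1 : (phiE b₀).symm (P.d₁ (phiE b₁ x)) = 0 ↔ P.d₁ (phiE b₁ x) = 0 :=
        (phiE b₀).symm.map_eq_zero_iff
      refine h1.trans ?_
      rw [P.exact₁]
      constructor
      · rintro ⟨y, hy⟩
        refine ⟨(phiE b₂).symm y, ?_⟩
        change (phiE b₁).symm (P.d₂ (phiE b₂ ((phiE b₂).symm y))) = x
        rw [LinearEquiv.apply_symm_apply, hy, LinearEquiv.symm_apply_apply]
      · rintro ⟨y, hy⟩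
        refine ⟨phiE b₂ y, ?_⟩
        rw [← hy]
        exact ((phiE b₁).apply_symm_apply _).symm
    injective := by
      intro x y hxy
      apply (phiE b₂).injective
      apply P.injective
      exact (phiE b₁).symm.injective hxy }

end Free

section Stab

variable {H : Type v} [Group H] {P₀ P₁ P₂ : Type v} [AddCommGroup P₀] [AddCommGroup P₁]
    [AddCommGroup P₂] [Module (MonoidAlgebra ℤ H) P₀] [Module (MonoidAlgebra ℤ H) P₁]
    [Module (MonoidAlgebra ℤ H) P₂]

theorem PjRes.eps_smul (P : PjRes H P₀ P₁ P₂) (a : MonoidAlgebra ℤ H) (x : P₀) :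
    P.ε (a • x) = augG ℤ H a * P.ε x := by
  induction a using MonoidAlgebra.induction_linear with
  | zero => rw [zero_smul, map_zero, map_zero, zero_mul]
  | add a b ha hb => rw [add_smul, map_add, map_add, add_mul, ha, hb]
  | single g n =>
    have h1 : (MonoidAlgebra.single g n : MonoidAlgebra ℤ H) =
        n • (MonoidAlgebra.single g 1 : MonoidAlgebra ℤ H) := by
      rw [MonoidAlgebra.smul_single, smul_eq_mul, mul_one]
    rw [augG_single, h1, smul_assoc, map_zsmul, P.invariant, smul_eq_mul]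

/-- adding free modules -/
noncomputable def PjRes.stab (P : PjRes H P₀ P₁ P₂) (F₀ F₁ F₂ : Type v) [AddCommGroup F₀]
    [AddCommGroup F₁] [AddCommGroup F₂] [Module (MonoidAlgebra ℤ H) F₀]
    [Module (MonoidAlgebra ℤ H) F₁] [Module (MonoidAlgebra ℤ H) F₂] (p : P₀) (hp : P.ε p = 1) :
    PjRes H ((P₀ × (F₀ × F₁)) × MonoidAlgebra ℤ H)
      ((P₁ × ((F₀ × F₁) × F₂)) × MonoidAlgebra ℤ H) (P₂ × F₂) where
  d₁ :=
    { toFun := fun x => ((P.d₁ x.1.1 - x.2 • p, x.1.2.1), x.2)
      map_add' := fun x y => by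
        refine Prod.ext (Prod.ext ?_ rfl) rfl
        change P.d₁ (x.1.1 + y.1.1) - (x.2 + y.2) • p =
          (P.d₁ x.1.1 - x.2 • p) + (P.d₁ y.1.1 - y.2 • p)
        rw [map_add, add_smul]
        abel
      map_smul' := fun a x => by
        refine Prod.ext (Prod.ext ?_ rfl) rfl
        change P.d₁ (a • x.1.1) - (a • x.2) • p = a • (P.d₁ x.1.1 - x.2 • p)
        rw [map_smul, smul_sub, smul_assoc] }
  d₂ :=
    { toFun := fun x => ((P.d₂ x.1, (0, x.2)), 0)
      map_add' := fun x y => by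
        refine Prod.ext (Prod.ext ?_ (Prod.ext ?_ rfl)) ?_
        · exact map_add P.d₂ _ _
        · exact (add_zero _).symm
        · exact (add_zero _).symm
      map_smul' := fun a x => by
        refine Prod.ext (Prod.ext ?_ (Prod.ext ?_ rfl)) ?_
        · exact map_smul P.d₂ _ _
        · exact (smul_zero _).symm
        · exact (smul_zero _).symm }
  ε :=
    { toFun := fun x => P.ε x.1.1 + augG ℤ H x.2
      map_zero' := by
        change P.ε 0 + augG ℤ H 0 = 0
        rw [map_zero, map_zero, add_zero]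
      map_add' := fun x y => by
        change P.ε (x.1.1 + y.1.1) + augG ℤ H (x.2 + y.2) = _
        rw [map_add, map_add]
        abel }
  invariant h x := by
    change P.ε ((MonoidAlgebra.single h 1 : MonoidAlgebra ℤ H) • x.1.1) +
      augG ℤ H ((MonoidAlgebra.single h 1 : MonoidAlgebra ℤ H) * x.2) =
      P.ε x.1.1 + augG ℤ H x.2
    rw [P.invariant, map_mul, augG_single, one_mul]
  surjective n := by
    obtain ⟨x, hx⟩ := P.surjective n
    refine ⟨((x, 0), 0), ?_⟩
    change P.ε x + augG ℤ H 0 = n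
    rw [map_zero, add_zero, hx]
  exact₀ x := by
    constructor
    · intro hx
      have hx' : P.ε x.1.1 + augG ℤ H x.2 = 0 := hx
      have h1 : P.ε (x.1.1 + x.2 • p) = 0 := by
        rw [map_add, P.eps_smul, hp, mul_one, hx']
      obtain ⟨y, hy⟩ := (P.exact₀ _).1 h1
      refine ⟨((y, (x.1.2, 0)), x.2), ?_⟩
      change ((P.d₁ y - x.2 • p, x.1.2), x.2) = x
      rw [hy, add_sub_cancel_right]
    · rintro ⟨y, rfl⟩
      change P.ε (P.d₁ y.1.1 - y.2 • p) + augG ℤ H y.2 = 0
      rw [map_sub, P.eps_smul, hp, mul_one, (P.exact₀ _).2 ⟨_, rfl⟩, zero_sub, neg_add_cancel]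
  exact₁ x := by
    constructor
    · intro hx
      have h1 : P.d₁ x.1.1 - x.2 • p = 0 := congrArg (fun z => z.1.1) hx
      have h2 : x.1.2.1 = 0 := congrArg (fun z => z.1.2) hx
      have h3 : x.2 = 0 := congrArg (fun z => z.2) hx
      rw [h3, zero_smul, sub_zero] at h1
      obtain ⟨y, hy⟩ := (P.exact₁ _).1 h1
      refine ⟨(y, x.1.2.2), ?_⟩
      exact Prod.ext (Prod.ext hy (Prod.ext h2.symm rfl)) h3.symm
    · rintro ⟨y, rfl⟩
      change ((P.d₁ (P.d₂ y.1) - (0 : MonoidAlgebra ℤ H) • p, (0 : F₀ × F₁)),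
        (0 : MonoidAlgebra ℤ H)) = 0
      rw [(P.exact₁ _).2 ⟨_, rfl⟩, zero_smul, sub_zero]
      rfl
  injective := by
    intro x y hxy
    have h1 : P.d₂ x.1 = P.d₂ y.1 := congrArg (fun z => z.1.1) hxy
    have h2 : x.2 = y.2 := congrArg (fun z => z.1.2.2) hxy
    exact Prod.ext (P.injective h1) h2

/-- shearing a basis -/
theorem exists_shear {M : Type v} [AddCommGroup M] [Module (MonoidAlgebra ℤ H) M]
    [Module.Free (MonoidAlgebra ℤ H) M] (ε : (M × MonoidAlgebra ℤ H) →+ ℤ)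
    (hε : ∀ x : M × MonoidAlgebra ℤ H, ε x = ε (x.1, 0) + augG ℤ H x.2) :
    ∃ (J : Type v) (b : Module.Basis J (MonoidAlgebra ℤ H) (M × MonoidAlgebra ℤ H)),
      ∀ j, ε (b j) = 1 := by
  let b := Module.Free.chooseBasis (MonoidAlgebra ℤ H) M
  let ℓ : M →ₗ[MonoidAlgebra ℤ H] MonoidAlgebra ℤ H :=
    b.constr ℤ fun j => MonoidAlgebra.single 1 (1 - ε (b j, 0))
  have hℓ : ∀ j, ℓ (b j) = MonoidAlgebra.single 1 (1 - ε (b j, 0)) := fun j =>
    Module.Basis.constr_basis _ _ _ _
  let θ : (M × MonoidAlgebra ℤ H) ≃ₗ[MonoidAlgebra ℤ H] (M × MonoidAlgebra ℤ H) :=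
    { toFun := fun x => (x.1, x.2 + ℓ x.1)
      map_add' := fun x y => by
        refine Prod.ext rfl ?_
        change x.2 + y.2 + ℓ (x.1 + y.1) = x.2 + ℓ x.1 + (y.2 + ℓ y.1)
        rw [map_add]
        abel
      map_smul' := fun a x => by
        refine Prod.ext rfl ?_
        change a • x.2 + ℓ (a • x.1) = a • (x.2 + ℓ x.1)
        rw [map_smul, smul_add]
      invFun := fun x => (x.1, x.2 - ℓ x.1)
      left_inv := fun x => Prod.ext rfl (add_sub_cancel_right _ _)
      right_inv := fun x => Prod.ext rfl (sub_add_cancel _ _) }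
  let b' : Module.Basis (_ ⊕ PUnit.{v + 1}) (MonoidAlgebra ℤ H) (M × MonoidAlgebra ℤ H) :=
    (b.prod (Module.Basis.singleton PUnit.{v + 1} (MonoidAlgebra ℤ H))).map θ
  refine ⟨_, b', ?_⟩
  rintro (j | j)
  · have h1 : b' (Sum.inl j) = (b j, 0 + ℓ (b j)) := by
      change θ ((b.prod (Module.Basis.singleton PUnit.{v + 1} (MonoidAlgebra ℤ H))) (Sum.inl j)) = _
      rw [Module.Basis.prod_apply]
      rfl
    rw [h1, hε, zero_add, hℓ, augG_single]
    change ε (b j, 0) + (1 - ε (b j, 0)) = 1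
    ring
  · have h1 : b' (Sum.inr j) = (0, 1 + ℓ 0) := by
      change θ ((b.prod (Module.Basis.singleton PUnit.{v + 1} (MonoidAlgebra ℤ H))) (Sum.inr j)) = _
      rw [Module.Basis.prod_apply]
      change ((0 : M), (Module.Basis.singleton PUnit.{v + 1} (MonoidAlgebra ℤ H)) j + ℓ 0) = _
      rw [Module.Basis.singleton_apply]
    rw [h1, hε, map_zero, add_zero, map_one]
    change ε 0 + 1 = 1
    rw [map_zero, zero_add]

/-- **Free resolutions from projective ones.** -/
theorem PjRes.exists_pRes [Module.Projective (MonoidAlgebra ℤ H) P₀]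
    [Module.Projective (MonoidAlgebra ℤ H) P₁] [Module.Projective (MonoidAlgebra ℤ H) P₂]
    (P : PjRes H P₀ P₁ P₂) : ∃ J₀ J₁ J₂ : Type v, Nonempty
      (@PRes H _ (H × J₀) (H × J₁) (H × J₂) (freeAct H J₀) (freeAct H J₁) (freeAct H J₂)) := by
  obtain ⟨F₀, _, _, hF₀, hP₀⟩ := exists_swindle (Λ := MonoidAlgebra ℤ H) P₀
  obtain ⟨F₁, _, _, hF₁, hP₁⟩ := exists_swindle (Λ := MonoidAlgebra ℤ H) P₁
  obtain ⟨F₂, _, _, hF₂, hP₂⟩ := exists_swindle (Λ := MonoidAlgebra ℤ H) P₂
  obtain ⟨p, hp⟩ := P.surjective 1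
  have h0 : Module.Free (MonoidAlgebra ℤ H) (P₀ × (F₀ × F₁)) :=
    Module.Free.of_equiv (LinearEquiv.prodAssoc (MonoidAlgebra ℤ H) P₀ F₀ F₁)
  have h1 : Module.Free (MonoidAlgebra ℤ H) (P₁ × ((F₀ × F₁) × F₂)) := by
    let e : ((P₁ × F₁) × (F₀ × F₂)) ≃ₗ[MonoidAlgebra ℤ H] (P₁ × ((F₀ × F₁) × F₂)) :=
      { toFun := fun x => (x.1.1, ((x.2.1, x.1.2), x.2.2))
        map_add' := fun _ _ => rfl
        map_smul' := fun _ _ => rfl
        invFun := fun x => ((x.1, x.2.1.2), (x.2.1.1, x.2.2))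
        left_inv := fun _ => rfl
        right_inv := fun _ => rfl }
    exact Module.Free.of_equiv e
  obtain ⟨J₀, b₀, hb₀⟩ := exists_shear (P.stab F₀ F₁ F₂ p hp).ε (fun x => by
    change P.ε x.1.1 + augG ℤ H x.2 = (P.ε x.1.1 + augG ℤ H 0) + augG ℤ H x.2
    rw [map_zero, add_zero])
  exact ⟨J₀, _, _, ⟨(P.stab F₀ F₁ F₂ p hp).toPRes b₀
    (Module.Free.chooseBasis (MonoidAlgebra ℤ H) ((P₁ × ((F₀ × F₁) × F₂)) × MonoidAlgebra ℤ H))
    (Module.Free.chooseBasis (MonoidAlgebra ℤ H) (P₂ × F₂)) hb₀⟩⟩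

/-- the stabilizers of the free action are trivial -/
theorem subsingleton_stabilizer_freeAct (J : Type v) (u : H × J) :
    Subsingleton (@MulAction.stabilizer H (H × J) _ (freeAct H J) u) := by
  let _ : MulAction H (H × J) := freeAct H J
  constructor
  rintro ⟨g, hg⟩ ⟨g', hg'⟩
  have h1 : g * u.1 = u.1 := congrArg Prod.fst (mem_stabilizer_iff.1 hg)
  have h2 : g' * u.1 = u.1 := congrArg Prod.fst (mem_stabilizer_iff.1 hg')
  apply Subtype.ext
  exact mul_right_cancel (h1.trans h2.symm)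

theorem regGroup_of_subsingleton (G : Type v) [Group G] [Subsingleton G] : RegGroup.{u} G :=
  fun _ _ hR => (NiceGroup.of_subsingleton (G := G) hR).reg

theorem RegGroup.regCohGroup {G : Type v} [Group G] (h : RegGroup.{u} G) : RegCohGroup.{u} G :=
  fun R _ hR => (h R hR).regCoh

/-- **Groups of cohomological dimension at most two.** -/
theorem TDCl.cd_le_two [Module.Projective (MonoidAlgebra ℤ H) P₀]
    [Module.Projective (MonoidAlgebra ℤ H) P₁] [Module.Projective (MonoidAlgebra ℤ H) P₂]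
    (P : PjRes H P₀ P₁ P₂) : TDCl.{u} H := by
  obtain ⟨J₀, J₁, J₂, ⟨Q⟩⟩ := P.exists_pRes
  let _ : MulAction H (H × J₀) := freeAct H J₀
  let _ : MulAction H (H × J₁) := freeAct H J₁
  let _ : MulAction H (H × J₂) := freeAct H J₂
  refine TDCl.two H (H × J₀) (H × J₁) (H × J₂) Q (fun u => ?_) (fun u => ?_) (fun u => ?_)
  · have := subsingleton_stabilizer_freeAct J₀ u
    exact TDCl.coh _ (regGroup_of_subsingleton _).regCohGroup
  · have := subsingleton_stabilizer_freeAct J₁ u
    exact (regGroup_of_subsingleton _).regCohGroup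
  · have := subsingleton_stabilizer_freeAct J₂ u
    exact regGroup_of_subsingleton _

end Stab

end Pool.Agent.Lib.MP_c052b4_al
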