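import Pool.Agent.Lib.MP_c052b4_al.Mg.G094

/-!
# A class of groups with vanishing `NK_i`, `i ≤ 1`
-/

set_option autoImplicit false
set_option linter.unusedSectionVars false

namespace Pool.Agent.Lib.MP_c052b4_al

open Matrix MulAction

universe u v w w'

section Directed

variable {S : Type u} [Ring S] {G : Type v} [Group G]

/-- `K₁` of the group ring of a directed union -/
theorem exists_kOne_of_directed (𝒮 : Set (Subgroup G)) (hS : 𝒮.Nonempty)
    (hdir : DirectedOn (· ≤ ·) 𝒮) (hcov : ∀ g : G, ∃ H ∈ 𝒮, g ∈ H)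
    (x : KOne (MonoidAlgebra S G)) :
    ∃ K ∈ 𝒮, ∃ y : KOne (MonoidAlgebra S K), KOne.map (inc S K.subtype) y = x := by
  classical
  obtain ⟨k, A, rfl⟩ := exists_k1 x
  let A0 : Matrix (Fin k) (Fin k) (MonoidAlgebra S G) := A
  let B0 : Matrix (Fin k) (Fin k) (MonoidAlgebra S G) := (A⁻¹ : (Matrix (Fin k) (Fin k) _)ˣ)
  obtain ⟨K, hK, hT⟩ := exists_mem_of_directed 𝒮 hS hdir hcov
    ((⋃ i, ⋃ j, ((A0 i j).coeff.support : Set G)) ∪
      ⋃ i, ⋃ j, ((B0 i j).coeff.support : Set G)) (by
      refine Set.Finite.union ?_ ?_ <;>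
      exact Set.finite_iUnion fun i => Set.finite_iUnion fun j => Finset.finite_toSet _)
  let f := K.subtype
  have hf : Function.Injective f := K.subtype_injective
  let A1 : Matrix (Fin k) (Fin k) (MonoidAlgebra S K) := Matrix.of fun i j => rs S f hf (A0 i j)
  let B1 : Matrix (Fin k) (Fin k) (MonoidAlgebra S K) := Matrix.of fun i j => rs S f hf (B0 i j)
  have hA1 : A1.map (inc S f) = A0 := by
    ext1 i j
    refine inc_rs_of_support K (A0 i j) fun g hg => hT ?_
    left
    simp only [Set.mem_iUnion]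
    exact ⟨i, j, Finsupp.mem_support_iff.2 hg⟩
  have hB1 : B1.map (inc S f) = B0 := by
    ext1 i j
    refine inc_rs_of_support K (B0 i j) fun g hg => hT ?_
    right
    simp only [Set.mem_iUnion]
    exact ⟨i, j, Finsupp.mem_support_iff.2 hg⟩
  have hinj : Function.Injective
      (fun M : Matrix (Fin k) (Fin k) (MonoidAlgebra S K) => M.map (inc S f)) :=
    Matrix.map_injective (inc_injective f hf)
  have h1 : A1 * B1 = 1 := by
    apply hinj
    change (A1 * B1).map (inc S f) = (1 : Matrix (Fin k) (Fin k) (MonoidAlgebra S K)).map (inc S f)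
    rw [Matrix.map_mul, hA1, hB1, Matrix.map_one _ (map_zero _) (map_one _)]
    exact A.mul_inv
  have h2 : B1 * A1 = 1 := by
    apply hinj
    change (B1 * A1).map (inc S f) = (1 : Matrix (Fin k) (Fin k) (MonoidAlgebra S K)).map (inc S f)
    rw [Matrix.map_mul, hA1, hB1, Matrix.map_one _ (map_zero _) (map_one _)]
    exact A.inv_mul
  let U : (Matrix (Fin k) (Fin k) (MonoidAlgebra S K))ˣ := ⟨A1, B1, h1, h2⟩
  refine ⟨K, hK, k1 U, ?_⟩
  rw [KOne.map_k1]
  congr 1
  apply Units.ext
  exact hA1

end Directed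

theorem nv1_of_directed {G : Type v} [Group G] (𝒮 : Set (Subgroup G)) (hS : 𝒮.Nonempty)
    (hdir : DirectedOn (· ≤ ·) 𝒮) (hcov : ∀ g : G, ∃ H ∈ 𝒮, g ∈ H)
    (h : ∀ H ∈ 𝒮, NV1.{u} H) : NV1.{u} G := by
  intro R _ hR
  apply AbFunctor.surPol_of_group
  intro x
  obtain ⟨K, hK, y, rfl⟩ := exists_kOne_of_directed (S := Pol R) 𝒮 hS hdir hcov x
  have hs : Function.Surjective (KOne.map (MonoidAlgebra.mapRingHom K (cP R))) :=
    (h K hK R hR).group K1Fun
  obtain ⟨z, rfl⟩ := hs y
  refine ⟨KOne.map (inc R K.subtype) z, ?_⟩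
  change KOne.map _ (KOne.map (inc R K.subtype) z) = _
  rw [← KOne.map_comp, ← KOne.map_comp, inc_map_cP]

theorem NV1.surPol_kZero {G : Type v} [Group G] (h : NV1.{u} G) {R : Type u} [Ring R]
    (hR : IsRegularRing R) : K0.{max u v}.SurPol (MonoidAlgebra R G) :=
  h.kMinus 0 (QR.self hR)

/-- The smallest class of groups which contains `TDCl` and is closed under subgroups, directed
unions and tree actions with vertex stabilizers in the class such that every ray has an initial
segment whose pointwise stabilizer lies in `TDCl`. -/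
inductive NCl : ∀ (G : Type v) [Group G], Prop
  | base (G : Type v) [Group G] : TDCl.{u} G → NCl G
  | sub (G H : Type v) [Group G] [Group H] (f : H →* G) : Function.Injective f → NCl G → NCl H
  | union (G : Type v) [Group G] (S : Set (Subgroup G)) : S.Nonempty → DirectedOn (· ≤ ·) S →
      (∀ g : G, ∃ H ∈ S, g ∈ H) → (∀ H ∈ S, NCl H) → NCl G
  | tree (G : Type v) [Group G] (V : Type v) [MulAction G V] (T : TreeAction G V) :
      (∀ v : V, NCl (stabilizer G v)) → RayCondT.{u} T → NCl G

theorem RayCondT.comp {G : Type v} [Group G] {V : Type w} [MulAction G V] {T : TreeAction G V}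
    (hray : RayCondT.{u} T) {H : Type v} [Group H] (f : H →* G) (hf : Function.Injective f) :
    @RayCondT.{u} H _ V (MulAction.compHom V f) (T.comp f) := by
  intro ρ h1 h2
  let _ : MulAction H V := MulAction.compHom V f
  obtain ⟨n, hn⟩ := hray ρ h1 h2
  refine ⟨n, TDCl.sub _ _ (subMap f (⨅ i : Fin (n + 1), stabilizer H (ρ i))
    (⨅ i : Fin (n + 1), stabilizer G (ρ i)) fun x hx => ?_) (subMap_injective f hf _ _ _) hn⟩
  rw [Subgroup.mem_iInf] at hx ⊢
  exact hx

/-- **The `NK_i`, `i ≤ 1`, vanish for the groups in the class.** -/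
theorem NCl.hered {G : Type v} [Group G] (h : NCl.{u} G) : ∀ (H : Type v) [Group H] (f : H →* G),
    Function.Injective f → NV1.{u} H := by
  induction h with
  | base G hG =>
    intro H _ f hf
    exact (TDCl.sub G H f hf hG).nv1
  | sub G G' g hg _ ih =>
    intro H _ f hf
    exact ih H (g.comp f) (hg.comp hf)
  | union G S hS hdir hcov _ ih =>
    intro H _ f hf
    have hd : DirectedOn (· ≤ ·) ((fun A : Subgroup G => A.comap f) '' S) := by
      rintro _ ⟨A, hA, rfl⟩ _ ⟨B, hB, rfl⟩
      obtain ⟨C, hC, h1, h2⟩ := hdir A hA B hB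
      exact ⟨_, ⟨C, hC, rfl⟩, Subgroup.comap_mono h1, Subgroup.comap_mono h2⟩
    have hc : ∀ g : H, ∃ A ∈ ((fun A : Subgroup G => A.comap f) '' S), g ∈ A := by
      intro g
      obtain ⟨A, hA, hg⟩ := hcov (f g)
      exact ⟨_, ⟨A, hA, rfl⟩, hg⟩
    have key : ∀ B ∈ ((fun A : Subgroup G => A.comap f) '' S), NV1.{u} B := by
      rintro _ ⟨A, hA, rfl⟩
      exact ih A hA _ (subMap f (A.comap f) A fun x hx => hx) (subMap_injective f hf _ _ _)
    exact nv1_of_directed _ (hS.image _) hd hc key
  | tree G V T _ hray ih =>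
    intro H _ f hf
    let _ : MulAction H V := MulAction.compHom V f
    let T' : TreeAction H V := T.comp f
    have hv : ∀ v : V, NV1.{u} (stabilizer H v) := fun v =>
      ih v _ (subMap f (stabilizer H v) (stabilizer G v) fun x hx => hx)
        (subMap_injective f hf _ _ _)
    have he1 : ∀ x y : V, T'.graph.Adj x y → NV1.{u} ↥(stabilizer H x ⊓ stabilizer H y) :=
      fun x y _ => ih x _ (subMap f (stabilizer H x ⊓ stabilizer H y) (stabilizer G x)
        fun x hx => hx.1) (subMap_injective f hf _ _ _)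
    exact nv1_of_tree_rayT T' (hray.comp f hf) hv fun x y hxy R _ hR =>
      (he1 x y hxy).surPol_kZero hR

theorem NCl.nv1 {G : Type v} [Group G] (h : NCl.{u} G) : NV1.{u} G :=
  h.hered G (MonoidHom.id G) Function.injective_id

/-- The smallest class of groups which contains the trivial groups and is closed under subgroups,
directed unions and tree actions (without inversions) with vertex stabilizers in the class such that
every ray has an initial segment whose pointwise stabilizer lies in `TDCl`. -/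
inductive TTCl : ∀ (G : Type v) [Group G], Prop
  | triv (G : Type v) [Group G] [Subsingleton G] : TTCl G
  | sub (G H : Type v) [Group G] [Group H] (f : H →* G) : Function.Injective f → TTCl G → TTCl H
  | union (G : Type v) [Group G] (S : Set (Subgroup G)) : S.Nonempty → DirectedOn (· ≤ ·) S →
      (∀ g : G, ∃ H ∈ S, g ∈ H) → (∀ H ∈ S, TTCl H) → TTCl G
  | tree (G : Type v) [Group G] (V : Type v) [MulAction G V] (T : TreeAction G V) :
      (∀ v : V, TTCl (stabilizer G v)) → RayCondT.{u} T → TTCl G

/-- All subgroups of groups in the class satisfy `HK`. -/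
theorem TTCl.hered {G : Type v} [Group G] (h : TTCl.{u} G) :
    ∀ (H : Type v) [Group H] (f : H →* G), Function.Injective f → HK.{u} H := by
  induction h with
  | triv G =>
    intro H _ f hf
    have : Subsingleton H := hf.subsingleton
    exact fun R _ hR => imA1_of_subsingleton
  | sub G G' g hg _ ih =>
    intro H _ f hf
    exact ih H (g.comp f) (hg.comp hf)
  | union G S hS hdir hcov _ ih =>
    intro H _ f hf
    have hd : DirectedOn (· ≤ ·) ((fun A : Subgroup G => A.comap f) '' S) := by
      rintro _ ⟨A, hA, rfl⟩ _ ⟨B, hB, rfl⟩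
      obtain ⟨C, hC, h1, h2⟩ := hdir A hA B hB
      exact ⟨_, ⟨C, hC, rfl⟩, Subgroup.comap_mono h1, Subgroup.comap_mono h2⟩
    have hc : ∀ g : H, ∃ A ∈ ((fun A : Subgroup G => A.comap f) '' S), g ∈ A := by
      intro g
      obtain ⟨A, hA, hg⟩ := hcov (f g)
      exact ⟨_, ⟨A, hA, rfl⟩, hg⟩
    have key : ∀ B ∈ ((fun A : Subgroup G => A.comap f) '' S), HK.{u} B := by
      rintro _ ⟨A, hA, rfl⟩
      exact ih A hA _ (subMap f (A.comap f) A fun x hx => hx) (subMap_injective f hf _ _ _)
    exact fun R _ hR => imA1_of_directed _ (hS.image _) hd hc fun B hB => key B hB R hR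
  | tree G V T _ hray ih =>
    intro H _ f hf
    let _ : MulAction H V := MulAction.compHom V f
    let T' : TreeAction H V := T.comp f
    have hv : ∀ v : V, HK.{u} (stabilizer H v) := fun v =>
      ih v _ (subMap f (stabilizer H v) (stabilizer G v) fun x hx => hx)
        (subMap_injective f hf _ _ _)
    have he1 : ∀ x y : V, T'.graph.Adj x y → HK.{u} ↥(stabilizer H x ⊓ stabilizer H y) :=
      fun x y _ => ih x _ (subMap f (stabilizer H x ⊓ stabilizer H y) (stabilizer G x)
        fun x hx => hx.1) (subMap_injective f hf _ _ _)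
    exact hk_of_tree_rayT T' (hray.comp f hf) hv fun x y hxy R _ hR => (he1 x y hxy).kSurj hR

theorem TTCl.hk {G : Type v} [Group G] (h : TTCl.{u} G) : HK.{u} G :=
  h.hered G (MonoidHom.id G) Function.injective_id

end Pool.Agent.Lib.MP_c052b4_al
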