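import Pool.Agent.Lib.MP_c052b4_al.RegRing

/-!
# Polynomial rings over regular rings are regular (Hilbert's syzygy theorem)
-/

set_option autoImplicit false
set_option linter.unusedSectionVars false

namespace Pool.Agent.Lib.MP_c052b4_al

open Matrix

universe u

namespace PolX

variable {S : Type u} [Ring S]


section Vec

variable {I : Type*}

/-- the `k`-th coordinate vector of a vector over `S[X]` -/
def cf (w : I → (Polynomial S)) (k : ℕ) : I → S := fun i => (w i).coeff k

theorem cf_ext {w w' : I → (Polynomial S)} (h : ∀ k, cf w k = cf w' k) : w = w' := by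
  funext i
  apply Polynomial.ext
  intro k
  exact congrFun (h k) i

@[simp] theorem cf_zero (k : ℕ) : cf (0 : I → (Polynomial S)) k = 0 := by
  funext i; simp [cf]

theorem cf_add (w w' : I → (Polynomial S)) (k : ℕ) : cf (w + w') k = cf w k + cf w' k := by
  funext i; simp [cf]

theorem cf_sub (w w' : I → (Polynomial S)) (k : ℕ) : cf (w - w') k = cf w k - cf w' k := by
  funext i; simp [cf]

theorem cf_pow_smul (j : ℕ) (w : I → (Polynomial S)) (k : ℕ) :
    cf ((Polynomial.X : (Polynomial S)) ^ j • w) k = if j ≤ k then cf w (k - j) else 0 := by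
  funext i
  simp only [cf, Pi.smul_apply, smul_eq_mul, Polynomial.coeff_X_pow_mul']
  split_ifs <;> rfl

theorem cf_C_smul (s : S) (w : I → (Polynomial S)) (k : ℕ) :
    cf (Polynomial.C s • w) k = s • cf w k := by
  funext i; simp [cf]

/-- the vector over `S[X]` given by a vector over `S` -/
noncomputable def emb (v : I → S) : I → (Polynomial S) := fun i => Polynomial.C (v i)

theorem emb_add (v v' : I → S) : emb (v + v') = emb v + emb v' := by
  funext i; simp [emb]

@[simp] theorem emb_zero : emb (0 : I → S) = 0 := by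
  funext i; simp [emb]

theorem emb_smul (s : S) (v : I → S) : emb (s • v) = Polynomial.C s • emb v := by
  funext i; simp [emb]

theorem cf_emb (v : I → S) (k : ℕ) : cf (emb v) k = if k = 0 then v else 0 := by
  funext i
  simp only [cf, emb, Polynomial.coeff_C]
  split_ifs <;> rfl

theorem cf_pow_emb (j : ℕ) (v : I → S) (k : ℕ) :
    cf ((Polynomial.X : (Polynomial S)) ^ j • emb v) k = if k = j then v else 0 := by
  rw [cf_pow_smul, cf_emb]
  by_cases h : k = j
  · simp [h]
  · rw [if_neg h]
    split_ifs with h1 h2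
    · omega
    · rfl
    · rfl

theorem cf_vecMul [Fintype I] {J : Type*} (w : I → (Polynomial S)) (F : Matrix I J S) (k : ℕ) :
    cf (w ᵥ* F.map (Polynomial.C : S →+* (Polynomial S))) k = cf w k ᵥ* F := by
  funext j
  simp only [cf, Matrix.vecMul, dotProduct, Matrix.map_apply, Polynomial.finsetSum_coeff,
    Polynomial.coeff_mul_C]

theorem emb_vecMul {J : Type*} [Fintype I] (v : I → S) (F : Matrix I J S) :
    emb v ᵥ* F.map (Polynomial.C : S →+* (Polynomial S)) = emb (v ᵥ* F) := by
  funext j
  simp [emb, Matrix.vecMul, dotProduct]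

variable [Finite I]

theorem exists_window (w : I → (Polynomial S)) : ∃ r : ℕ, ∀ k, r < k → cf w k = 0 := by
  classical
  have : Fintype I := Fintype.ofFinite I
  refine ⟨Finset.univ.sup fun i => (w i).natDegree, fun k hk => ?_⟩
  funext i
  apply Polynomial.coeff_eq_zero_of_natDegree_lt
  exact lt_of_le_of_lt (Finset.le_sup (f := fun i => (w i).natDegree) (Finset.mem_univ i)) hk

/-- assemble a vector from finitely many coordinates -/
theorem exists_of_cf (w : I → (Polynomial S)) {J : Type*} (v : ℕ → J → S) :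
    ∃ w' : J → (Polynomial S), ∀ k, (cf w' k = v k ∨ (cf w k = 0 ∧ cf w' k = 0)) := by
  classical
  obtain ⟨r, h⟩ := exists_window w
  refine ⟨∑ k ∈ Finset.range (r + 1), (Polynomial.X : (Polynomial S)) ^ k • emb (v k), fun k => ?_⟩
  have h1 : cf (∑ k ∈ Finset.range (r + 1), (Polynomial.X : (Polynomial S)) ^ k • emb (v k)) k =
      if k ∈ Finset.range (r + 1) then v k else 0 := by
    have h2 : ∀ (s : Finset ℕ), cf (∑ k ∈ s, (Polynomial.X : (Polynomial S)) ^ k • emb (v k)) k =
        if k ∈ s then v k else 0 := by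
      intro s
      induction s using Finset.induction_on with
      | empty => simp
      | insert j s hj ih =>
        rw [Finset.sum_insert hj, cf_add, ih, cf_pow_emb]
        by_cases hkj : k = j
        · subst hkj; simp [hj]
        · simp [hkj]
    exact h2 _
  rw [h1]
  by_cases hk : k ∈ Finset.range (r + 1)
  · left; simp [hk]
  · right
    refine ⟨h k ?_, by simp [hk]⟩
    rw [Finset.mem_range] at hk
    omega

theorem vec_expand (w : I → (Polynomial S)) :
    ∃ s : Finset ℕ, w = ∑ k ∈ s, (Polynomial.X : (Polynomial S)) ^ k • emb (cf w k) := by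
  classical
  obtain ⟨r, h⟩ := exists_window w
  refine ⟨Finset.range (r + 1), ?_⟩
  apply cf_ext
  intro k
  have h2 : ∀ (s : Finset ℕ), cf (∑ k ∈ s, (Polynomial.X : (Polynomial S)) ^ k • emb (cf w k)) k =
      if k ∈ s then cf w k else 0 := by
    intro s
    induction s using Finset.induction_on with
    | empty => simp
    | insert j s hj ih =>
      rw [Finset.sum_insert hj, cf_add, ih, cf_pow_emb]
      by_cases hkj : k = j
      · subst hkj; simp [hj]
      · simp [hkj]
  rw [h2]
  by_cases hk : k ∈ Finset.range (r + 1)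
  · simp [hk]
  · rw [if_neg hk]
    apply h
    rw [Finset.mem_range] at hk
    omega

end Vec

section Ind

variable {I : Type*}

/-- The `S[X]`-module induced from an `S`-submodule of a free module. -/
def ind (K : Submodule S (I → S)) : Submodule (Polynomial S) (I → (Polynomial S)) where
  carrier := {w | ∀ k, cf w k ∈ K}
  add_mem' := fun {w w'} hw hw' k => by
    rw [cf_add]; exact K.add_mem (hw k) (hw' k)
  zero_mem' := fun k => by rw [cf_zero]; exact K.zero_mem
  smul_mem' := by
    intro x w hw
    induction x using Polynomial.induction_on' with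
    | add x y hx hy => intro k; rw [add_smul, cf_add]; exact K.add_mem (hx k) (hy k)
    | monomial j s =>
      intro k
      rw [← Polynomial.C_mul_X_pow_eq_monomial, mul_smul, cf_C_smul, cf_pow_smul]
      refine K.smul_mem _ ?_
      split_ifs
      · exact hw _
      · exact K.zero_mem

theorem mem_ind {K : Submodule S (I → S)} {w : I → (Polynomial S)} : w ∈ ind K ↔ ∀ k, cf w k ∈ K :=
  Iff.rfl

theorem emb_mem_ind {K : Submodule S (I → S)} {v : I → S} (hv : v ∈ K) : emb v ∈ ind K := by
  intro k
  rw [cf_emb]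
  split_ifs
  · exact hv
  · exact K.zero_mem

end Ind

/-- the inclusion of the constants -/
noncomputable abbrev cX (S : Type u) [Ring S] : S →+* Polynomial S := Polynomial.C

theorem ind_good {I : Type} [Finite I] (K : Submodule S (I → S))
    (h : Good (RingHom.id S) K) : Good (cX S) (ind K) := by
  obtain ⟨p, ⟨θ⟩, -⟩ := h
  let F : Matrix (Fin p.size) I S := fun i => (θ ⟨p.mat i, row_mem_img p.idem i⟩ : I → S)
  have hF : ∀ x : img p.mat, ((θ x : K) : I → S) = (x : Fin p.size → S) ᵥ* F := by
    intro x
    have := img_map_eq p.idem (θ : img p.mat →ₗ[S] K) x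
    have h2 := congrArg Subtype.val this
    rw [LinearEquiv.coe_coe] at h2
    rw [h2, AddSubmonoidClass.coe_finsetSum]
    funext j
    simp [Matrix.vecMul, dotProduct, F]
  have hF2 : ∀ v : Fin p.size → S, v ᵥ* F ∈ K := by
    intro v
    have : v ᵥ* F = ∑ i, v i • (θ ⟨p.mat i, row_mem_img p.idem i⟩ : I → S) := by
      funext j
      simp [Matrix.vecMul, dotProduct, F]
    rw [this]
    exact K.sum_mem fun i _ => K.smul_mem _ (θ _).2
  have hpι := map_idem p.idem (cX S)
  have hmem : ∀ w : Fin p.size → (Polynomial S), w ∈ img (p.mat.map (cX S)) ↔ ∀ k, cf w k ∈ img p.mat := by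
    intro w
    rw [mem_img hpι]
    constructor
    · intro hw k
      rw [mem_img p.idem, ← cf_vecMul, hw]
    · intro hw
      apply cf_ext
      intro k
      rw [cf_vecMul]
      exact (mem_img p.idem).1 (hw k)
  let g : img (p.mat.map (cX S)) →ₗ[(Polynomial S)] ind K :=
    (Matrix.vecMulLinear (F.map (cX S))).restrict (fun w _ k => by
      change cf (w ᵥ* F.map (cX S)) k ∈ K
      rw [cf_vecMul]; exact hF2 _)
  have hg : ∀ w, ((g w : ind K) : I → (Polynomial S)) = (w : Fin p.size → (Polynomial S)) ᵥ* F.map (cX S) := fun _ => rfl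
  have hginj : Function.Injective g := by
    rw [← LinearMap.ker_eq_bot, LinearMap.ker_eq_bot']
    intro w hw
    have h1 : (w : Fin p.size → (Polynomial S)) ᵥ* F.map (cX S) = 0 := by
      rw [← hg, hw]; rfl
    apply Subtype.ext
    apply cf_ext
    intro k
    have h2 : cf (w : Fin p.size → (Polynomial S)) k ᵥ* F = 0 := by
      rw [← cf_vecMul, h1, cf_zero]
    have h3 := (hmem _).1 w.2 k
    have h4 : θ ⟨_, h3⟩ = 0 := by
      apply Subtype.ext
      rw [hF]
      exact h2
    have h5 : (⟨cf (w : Fin p.size → (Polynomial S)) k, h3⟩ : img p.mat) = 0 := by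
      apply θ.injective
      rw [h4, map_zero]
    have h6 := congrArg Subtype.val h5
    simpa using h6
  have hgsurj : Function.Surjective g := by
    rintro ⟨w, hw⟩
    obtain ⟨w', hw'⟩ := exists_of_cf w
      (fun k => ((θ.symm ⟨cf w k, hw k⟩ : img p.mat) : Fin p.size → S))
    have h1 : ∀ k, cf w' k = ((θ.symm ⟨cf w k, hw k⟩ : img p.mat) : Fin p.size → S) := by
      intro k
      rcases hw' k with h | ⟨h, h'⟩
      · exact h
      · rw [h']
        have : (⟨cf w k, hw k⟩ : K) = 0 := Subtype.ext h
        rw [this, map_zero]; rfl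
    have h2 : w' ∈ img (p.mat.map (cX S)) := by
      rw [hmem]
      intro k
      rw [h1]
      exact (θ.symm _).2
    refine ⟨⟨w', h2⟩, ?_⟩
    apply Subtype.ext
    apply cf_ext
    intro k
    rw [hg]
    change cf (w' ᵥ* F.map (cX S)) k = cf w k
    rw [cf_vecMul, h1, ← hF, LinearEquiv.apply_symm_apply]
  rw [good_iff hpι (LinearEquiv.ofBijective g ⟨hginj, hgsurj⟩)]
  exact ⟨_, KZero.kc_map (cX S) p.mat p.idem⟩

theorem ind_hasRes {n : ℕ} : ∀ {I : Type} [Finite I] (K : Submodule S (I → S)),
    HasRes (RingHom.id S) n K → HasRes (cX S) n (ind K) := by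
  induction n with
  | zero => intro I _ K h; exact ind_good K h
  | succ n ih =>
    intro I _ K h
    obtain ⟨m, f, hf, h⟩ := h
    let F : Matrix (Fin m) I S := fun i => (f (Pi.single i 1) : I → S)
    have hF : ∀ v : Fin m → S, ((f v : K) : I → S) = v ᵥ* F := by
      intro v
      have h1 : v = ∑ i, v i • (Pi.single i (1 : S) : Fin m → S) := by
        funext j
        simp [Pi.single_apply]
      have h2 : f v = ∑ i, v i • f (Pi.single i 1) := by
        conv_lhs => rw [h1]
        rw [map_sum]
        exact Finset.sum_congr rfl fun i _ => map_smul f _ _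
      rw [h2, AddSubmonoidClass.coe_finsetSum]
      funext j
      simp [Matrix.vecMul, dotProduct, F]
    let g : (Fin m → (Polynomial S)) →ₗ[(Polynomial S)] ind K :=
      (Matrix.vecMulLinear (F.map (cX S))).codRestrict (ind K) (fun w k => by
        change cf (w ᵥ* F.map (cX S)) k ∈ K
        rw [cf_vecMul, ← hF]; exact (f _).2)
    have hg : ∀ w, ((g w : ind K) : I → (Polynomial S)) = w ᵥ* F.map (cX S) := fun _ => rfl
    have hgsurj : Function.Surjective g := by
      rintro ⟨w, hw⟩
      choose v hv using fun k => hf ⟨cf w k, hw k⟩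
      obtain ⟨w', hw'⟩ := exists_of_cf w v
      refine ⟨w', ?_⟩
      apply Subtype.ext
      apply cf_ext
      intro k
      rw [hg]
      change cf (w' ᵥ* F.map (cX S)) k = cf w k
      rw [cf_vecMul]
      rcases hw' k with h | ⟨h, h'⟩
      · rw [h, ← hF, hv]
      · rw [h', h, Matrix.zero_vecMul]
    refine ⟨m, g, hgsurj, ?_⟩
    have hker : ind (LinearMap.ker f) = LinearMap.ker g := by
      ext w
      rw [LinearMap.mem_ker, mem_ind]
      constructor
      · intro hw
        apply Subtype.ext
        apply cf_ext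
        intro k
        rw [hg, cf_vecMul, ← hF]
        have : f (cf w k) = 0 := hw k
        rw [this]
        simp
      · intro hw k
        rw [LinearMap.mem_ker]
        apply Subtype.ext
        rw [hF, ← cf_vecMul, ← hg, hw]
        simp
    exact (ih _ h).congr (LinearEquiv.ofEq _ _ hker)

section MV

variable {J : Type} [Finite J] (d : ℕ)

/-- the map `(w_a) ↦ ∑ w_a X^a` -/
noncomputable def Phi : (Fin (d + 1) × J → (Polynomial S)) →ₗ[(Polynomial S)] (J → (Polynomial S)) where
  toFun w j := ∑ a : Fin (d + 1), w (a, j) * Polynomial.X ^ (a : ℕ)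
  map_add' w w' := by funext j; simp [add_mul, Finset.sum_add_distrib]
  map_smul' x w := by funext j; simp [mul_assoc, Finset.mul_sum]

theorem Phi_apply (w : Fin (d + 1) × J → (Polynomial S)) (j : J) :
    Phi d w j = ∑ a : Fin (d + 1), w (a, j) * Polynomial.X ^ (a : ℕ) := rfl

theorem coeff_Phi (w : Fin (d + 1) × J → (Polynomial S)) (j : J) (D : ℕ) :
    (Phi d w j).coeff D =
      ∑ a : Fin (d + 1), if (a : ℕ) ≤ D then (w (a, j)).coeff (D - a) else 0 := by
  rw [Phi_apply, Polynomial.finsetSum_coeff]
  exact Finset.sum_congr rfl fun a _ => Polynomial.coeff_mul_X_pow' _ _ _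

/-- lattice of `M` -/
def lat (M : Submodule (Polynomial S) (J → (Polynomial S))) : Submodule S (Fin (d + 1) × J → S) where
  carrier := {u | Phi d (emb u) ∈ M}
  add_mem' := fun {u u'} hu hu' => by
    change Phi d (emb (u + u')) ∈ M
    rw [emb_add, map_add]; exact M.add_mem hu hu'
  zero_mem' := by
    change Phi d (emb 0) ∈ M
    rw [emb_zero, map_zero]; exact M.zero_mem
  smul_mem' := fun s u hu => by
    change Phi d (emb (s • u)) ∈ M
    rw [emb_smul, map_smul]; exact M.smul_mem _ hu

/-- the part of the lattice with vanishing last coordinate -/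
def lat0 (M : Submodule (Polynomial S) (J → (Polynomial S))) : Submodule S (Fin (d + 1) × J → S) where
  carrier := {u | Phi d (emb u) ∈ M ∧ ∀ j, u (Fin.last d, j) = 0}
  add_mem' := fun {u u'} hu hu' =>
    ⟨(lat d M).add_mem hu.1 hu'.1, fun j => by simp [hu.2 j, hu'.2 j]⟩
  zero_mem' := ⟨(lat d M).zero_mem, fun j => rfl⟩
  smul_mem' := fun s u hu => ⟨(lat d M).smul_mem s hu.1, fun j => by simp [hu.2 j]⟩

/-- shift up: `(w_a) ↦ (w_{a-1})` -/
def up {B : Type u} [Zero B] (w : Fin (d + 1) × J → B) : Fin (d + 1) × J → B :=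
  fun x => Fin.cases (motive := fun _ => B) 0 (fun b : Fin d => w (b.castSucc, x.2)) x.1

theorem up_zero {B : Type u} [Zero B] (w : Fin (d + 1) × J → B) (j : J) : up d w (0, j) = 0 := by
  simp [up]

theorem up_succ {B : Type u} [Zero B] (w : Fin (d + 1) × J → B) (b : Fin d) (j : J) :
    up d w (b.succ, j) = w (b.castSucc, j) := by
  simp [up]

/-- `Ψ(w) = up(w) - X w` -/
noncomputable def Psi : (Fin (d + 1) × J → (Polynomial S)) →ₗ[(Polynomial S)] (Fin (d + 1) × J → (Polynomial S)) where
  toFun w := up d w - fun x => w x * Polynomial.X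
  map_add' w w' := by
    funext ⟨a, j⟩
    refine Fin.cases ?_ (fun b => ?_) a
    · simp [up_zero, add_mul]; abel
    · simp [up_succ, add_mul]; abel
  map_smul' x w := by
    funext ⟨a, j⟩
    refine Fin.cases ?_ (fun b => ?_) a
    · simp [up_zero, mul_assoc]
    · simp [up_succ, mul_sub, mul_assoc]

theorem Psi_apply (w : Fin (d + 1) × J → (Polynomial S)) (x : Fin (d + 1) × J) :
    Psi d w x = up d w x - w x * Polynomial.X := rfl

theorem Psi_injective : Function.Injective (Psi (S := S) (J := J) d) := by
  rw [← LinearMap.ker_eq_bot, LinearMap.ker_eq_bot']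
  intro w hw
  have hX : ∀ q : (Polynomial S), q * Polynomial.X = 0 → q = 0 := by
    intro q hq
    apply Polynomial.ext
    intro k
    have := congrArg (fun z : (Polynomial S) => z.coeff (k + 1)) hq
    simpa using this
  have key : ∀ (a : Fin (d + 1)) (j : J), w (a, j) = 0 := by
    intro a
    refine Fin.induction (motive := fun a => ∀ j : J, w (a, j) = 0) ?_ ?_ a
    · intro j
      have h := congrFun hw (0, j)
      rw [Psi_apply, up_zero, zero_sub, Pi.zero_apply, neg_eq_zero] at h
      exact hX _ h
    · intro b ih j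
      have h := congrFun hw (b.succ, j)
      rw [Psi_apply, up_succ, ih, zero_sub, Pi.zero_apply, neg_eq_zero] at h
      exact hX _ h
  funext ⟨a, j⟩
  exact key a j

theorem Phi_Psi (w : Fin (d + 1) × J → (Polynomial S)) (j : J) :
    Phi d (Psi d w) j = -(w (Fin.last d, j) * Polynomial.X ^ (d + 1)) := by
  have h1 : Phi d (Psi d w) j = ∑ a : Fin (d + 1), up d w (a, j) * Polynomial.X ^ (a : ℕ) -
      ∑ a : Fin (d + 1), w (a, j) * Polynomial.X ^ ((a : ℕ) + 1) := by
    rw [Phi_apply, ← Finset.sum_sub_distrib]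
    refine Finset.sum_congr rfl fun a _ => ?_
    rw [Psi_apply, sub_mul, mul_assoc, ← pow_succ']
  rw [h1, Fin.sum_univ_succ, Fin.sum_univ_castSucc (n := d)
    (fun a => w (a, j) * Polynomial.X ^ ((a : ℕ) + 1))]
  simp only [up_zero, up_succ, zero_mul, zero_add, Fin.val_succ, Fin.val_castSucc, Fin.val_last]
  abel

theorem cf_Psi (w : Fin (d + 1) × J → (Polynomial S)) (k : ℕ) :
    cf (Psi d w) k = up d (cf w k) - (if k = 0 then 0 else cf w (k - 1)) := by
  funext ⟨a, j⟩
  have h1 : cf (Psi d w) k (a, j) = (up d w (a, j)).coeff k -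
      (w (a, j) * Polynomial.X).coeff k := by
    change (Psi d w (a, j)).coeff k = _
    rw [Psi_apply, Polynomial.coeff_sub]
  have h2 : (up d w (a, j)).coeff k = up d (cf w k) (a, j) := by
    refine Fin.cases ?_ (fun b => ?_) a
    · rw [up_zero, up_zero, Polynomial.coeff_zero]
    · rw [up_succ, up_succ]; rfl
  have h3 : (w (a, j) * Polynomial.X).coeff k =
      (if k = 0 then (0 : Fin (d + 1) × J → S) else cf w (k - 1)) (a, j) := by
    cases k with
    | zero => simp
    | succ k => simp [cf]
  rw [h1, h2, h3]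
  rfl

/-- shifting up -/
theorem Phi_up (u : Fin (d + 1) × J → S) (hu : ∀ j, u (Fin.last d, j) = 0) :
    Phi d (emb (up d u)) = (Polynomial.X : (Polynomial S)) • Phi d (emb u) := by
  funext j
  rw [Pi.smul_apply, Phi_apply, Phi_apply, Fin.sum_univ_succ,
    Fin.sum_univ_castSucc (n := d) (fun a => emb u (a, j) * Polynomial.X ^ (a : ℕ))]
  simp only [emb, up_zero, up_succ, hu, map_zero, zero_mul, zero_add, add_zero, Fin.val_succ,
    Fin.val_castSucc, smul_eq_mul, Finset.mul_sum]
  refine Finset.sum_congr rfl fun b _ => ?_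
  rw [← mul_assoc, Polynomial.X_mul_C, mul_assoc, ← pow_succ']

theorem up_mem_lat {M : Submodule (Polynomial S) (J → (Polynomial S))} {u : Fin (d + 1) × J → S} (hu : u ∈ lat0 d M) :
    up d u ∈ lat d M := by
  change Phi d (emb (up d u)) ∈ M
  rw [Phi_up d u hu.2]
  exact M.smul_mem _ hu.1

theorem Psi_mem {M : Submodule (Polynomial S) (J → (Polynomial S))} {w : Fin (d + 1) × J → (Polynomial S)}
    (hw : w ∈ ind (lat0 d M)) : Psi d w ∈ ind (lat d M) := by
  intro k
  rw [cf_Psi]
  refine (lat d M).sub_mem (up_mem_lat d (hw k)) ?_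
  split_ifs
  · exact (lat d M).zero_mem
  · exact (hw _).1

theorem Phi_mem {M : Submodule (Polynomial S) (J → (Polynomial S))} {w : Fin (d + 1) × J → (Polynomial S)}
    (hw : w ∈ ind (lat d M)) : Phi d w ∈ M := by
  obtain ⟨s, hs⟩ := vec_expand w
  rw [hs, map_sum]
  refine M.sum_mem fun k _ => ?_
  rw [map_smul]
  exact M.smul_mem _ (hw k)

theorem emb_eq_zero_of_Phi {u : Fin (d + 1) × J → S} (h : Phi d (emb u) = 0) : u = 0 := by
  funext ⟨a, j⟩
  have h1 := coeff_Phi d (emb u) j (a : ℕ)
  rw [h, Finset.sum_eq_single a] at h1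
  · rw [if_pos le_rfl, Nat.sub_self] at h1
    simpa [emb] using h1.symm
  · intro b _ hb
    split_ifs with hba
    · have h2 : (a : ℕ) - (b : ℕ) ≠ 0 := by
        intro h0
        apply hb
        apply Fin.ext
        omega
      rw [emb, Polynomial.coeff_C, if_neg h2]
    · rfl
  · intro h; exact absurd (Finset.mem_univ a) h

theorem ker_Phi_aux {M : Submodule (Polynomial S) (J → (Polynomial S))} (r : ℕ) : ∀ (w : Fin (d + 1) × J → (Polynomial S)),
    w ∈ ind (lat d M) → Phi d w = 0 → (∀ k, r < k → cf w k = 0) →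
    ∃ w' ∈ ind (lat0 d M), Psi d w' = w := by
  induction r with
  | zero =>
    intro w hw h0 hwin
    have h1 : w = emb (cf w 0) := by
      apply cf_ext
      intro k
      rw [cf_emb]
      split_ifs with hk
      · rw [hk]
      · exact hwin k (Nat.pos_of_ne_zero hk)
    have h2 : cf w 0 = 0 := by
      apply emb_eq_zero_of_Phi d
      rw [← h1]
      exact h0
    refine ⟨0, Submodule.zero_mem _, ?_⟩
    rw [map_zero, h1, h2, emb_zero]
  | succ r ih =>
    intro w hw h0 hwin
    set u := cf w (r + 1) with hu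
    have huK : u ∈ lat d M := hw (r + 1)
    have hlast : ∀ j, u (Fin.last d, j) = 0 := by
      intro j
      have h1 := coeff_Phi d w j (r + 1 + d)
      rw [h0, Finset.sum_eq_single (Fin.last d)] at h1
      · rw [if_pos (by rw [Fin.val_last]; omega), Fin.val_last, Nat.add_sub_cancel, Pi.zero_apply,
          Polynomial.coeff_zero] at h1
        exact h1.symm
      · intro c _ hc
        have hc' : (c : ℕ) < d := by
          rcases lt_or_eq_of_le (Nat.lt_succ_iff.1 c.2) with h | h
          · exact h
          · exact absurd (Fin.ext (by simpa using h)) hc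
        rw [if_pos (by omega)]
        exact congrFun (hwin (r + 1 + d - (c : ℕ)) (by omega)) (c, j)
      · intro h; exact absurd (Finset.mem_univ _) h
    have hu0 : u ∈ lat0 d M := ⟨huK, hlast⟩
    have e1 : (Polynomial.X : (Polynomial S)) ^ r • emb u ∈ ind (lat0 d M) :=
      Submodule.smul_mem _ _ (emb_mem_ind hu0)
    obtain ⟨w'', hw'', hw2⟩ := ih (w + Psi d ((Polynomial.X : (Polynomial S)) ^ r • emb u))
      (Submodule.add_mem _ hw (Psi_mem d e1)) (by
        rw [map_add, h0, zero_add]
        funext j
        rw [Phi_Psi]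
        simp [emb, hlast]) (by
        intro k hk
        rw [cf_add, cf_Psi, cf_pow_emb, cf_pow_emb, if_neg (by omega : ¬ k = r)]
        have h5 : up d (0 : Fin (d + 1) × J → S) = 0 := by
          funext ⟨a, j⟩
          refine Fin.cases ?_ (fun b => ?_) a
          · rw [up_zero]; rfl
          · rw [up_succ]; rfl
        rw [h5, if_neg (by omega : ¬ k = 0)]
        by_cases hkb : k = r + 1
        · rw [if_pos (by omega), hkb, ← hu]; abel
        · rw [if_neg (by omega), hwin k (by omega)]; abel)
    refine ⟨w'' - (Polynomial.X : (Polynomial S)) ^ r • emb u, Submodule.sub_mem _ hw'' e1, ?_⟩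
    rw [map_sub, hw2]
    abel

/-- Resolution of a submodule of a free `S[X]`-module generated by a lattice. -/
theorem hasRes_of_lat {n : ℕ} {M : Submodule (Polynomial S) (J → (Polynomial S))}
    (hgen : M ≤ Submodule.span (Polynomial S) (Set.range fun u : lat d M => Phi d (emb (u : _ → S))))
    (h1 : HasRes (RingHom.id S) n (lat d M)) (h2 : HasRes (RingHom.id S) n (lat0 d M)) :
    HasRes (cX S) (n + 1) M := by
  refine HasRes.coker
    ((Psi d).restrict (p := ind (lat0 d M)) (q := ind (lat d M))
      (fun w hw => Psi_mem d hw))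
    ((Phi d).restrict (p := ind (lat d M)) (q := M) (fun w hw => Phi_mem d hw))
    ?_ ?_ ?_ (ind_hasRes _ h2) (ind_hasRes _ h1)
  · intro x y hxy
    apply Subtype.ext
    exact Psi_injective d (congrArg Subtype.val hxy)
  · rintro ⟨m, hm⟩
    have h3 : M ≤ (ind (lat d M)).map (Phi d) := by
      refine hgen.trans ?_
      rw [Submodule.span_le]
      rintro _ ⟨u, rfl⟩
      exact ⟨emb u, emb_mem_ind u.2, rfl⟩
    obtain ⟨w, hw, hwm⟩ := h3 hm
    exact ⟨⟨w, hw⟩, Subtype.ext hwm⟩
  · ext ⟨w, hw⟩
    rw [LinearMap.mem_range, LinearMap.mem_ker]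
    constructor
    · rintro ⟨⟨w', hw'⟩, h⟩
      have h4 : Psi d w' = w := congrArg Subtype.val h
      subst h4
      apply Subtype.ext
      change Phi d (Psi d w') = 0
      funext j
      rw [Phi_Psi]
      have h5 : w' (Fin.last d, j) = 0 := by
        apply Polynomial.ext
        intro k
        have := (hw' k).2 j
        simpa [cf] using this
      rw [h5]
      simp
    · intro h
      have h5 : Phi d w = 0 := congrArg Subtype.val h
      obtain ⟨r, hwin⟩ := exists_window w
      obtain ⟨w', hw', hww⟩ := ker_Phi_aux d r w hw h5 hwin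
      exact ⟨⟨w', hw'⟩, Subtype.ext hww⟩

end MV

section

variable {J : Type} [Finite J]

/-- elements of `M` of degree at most `d` -/
def win (M : Submodule (Polynomial S) (J → (Polynomial S))) (d : ℕ) (w : J → (Polynomial S)) : Prop :=
  w ∈ M ∧ ∀ k : ℕ, d < k → cf w k = 0

/-- leading coefficients -/
def lead (M : Submodule (Polynomial S) (J → (Polynomial S))) (d : ℕ) : Submodule S (J → S) where
  carrier := {v | ∃ w, win M d w ∧ cf w d = v}
  add_mem' := by
    rintro v v' ⟨w, ⟨hw, hw2⟩, rfl⟩ ⟨w', ⟨hw', hw2'⟩, rfl⟩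
    refine ⟨w + w', ⟨M.add_mem hw hw', fun k hk => ?_⟩, cf_add _ _ _⟩
    rw [cf_add, hw2 k hk, hw2' k hk, add_zero]
  zero_mem' := ⟨0, ⟨M.zero_mem, fun k _ => cf_zero k⟩, cf_zero _⟩
  smul_mem' := by
    rintro s v ⟨w, ⟨hw, hw2⟩, rfl⟩
    refine ⟨Polynomial.C s • w, ⟨M.smul_mem _ hw, fun k hk => ?_⟩, ?_⟩
    · rw [cf_C_smul, hw2 k hk, smul_zero]
    · rw [cf_C_smul]

theorem lead_mono (M : Submodule (Polynomial S) (J → (Polynomial S))) : Monotone (lead M) := by
  refine monotone_nat_of_le_succ fun d => ?_
  rintro v ⟨w, ⟨hw, hw2⟩, rfl⟩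
  refine ⟨(Polynomial.X : (Polynomial S)) ^ 1 • w, ⟨M.smul_mem _ hw, fun k hk => ?_⟩, ?_⟩
  · rw [cf_pow_smul, if_pos (by omega)]
    apply hw2
    omega
  · rw [cf_pow_smul, if_pos (by omega), Nat.add_sub_cancel]

theorem exists_lat_of_win {M : Submodule (Polynomial S) (J → (Polynomial S))} {d : ℕ} {w : J → (Polynomial S)} (hw : win M d w) :
    ∃ u : lat d M, Phi d (emb (u : _ → S)) = w := by
  let u : Fin (d + 1) × J → S := fun x => cf w (x.1 : ℕ) x.2
  have hu : Phi d (emb u) = w := by
    funext j
    apply Polynomial.ext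
    intro D
    rw [coeff_Phi]
    by_cases hD : d < D
    · have h1 := congrFun (hw.2 D hD) j
      change (w j).coeff D = 0 at h1
      rw [h1]
      refine Finset.sum_eq_zero fun a _ => ?_
      have ha : (a : ℕ) < D := by have := a.2; omega
      rw [if_pos ha.le, emb, Polynomial.coeff_C, if_neg (by omega)]
    · have hD' : D < d + 1 := by omega
      rw [Finset.sum_eq_single (⟨D, hD'⟩ : Fin (d + 1))]
      · rw [if_pos le_rfl]
        simp [emb, u, cf]
      · intro b _ hb
        split_ifs with hbD
        · have h2 : D - (b : ℕ) ≠ 0 := by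
            intro h0
            apply hb
            apply Fin.ext
            simp only
            omega
          rw [emb, Polynomial.coeff_C, if_neg h2]
        · rfl
      · intro h; exact absurd (Finset.mem_univ _) h
  exact ⟨⟨u, by change Phi d (emb u) ∈ M; rw [hu]; exact hw.1⟩, hu⟩

theorem exists_gen [IsNoetherianRing S] (M : Submodule (Polynomial S) (J → (Polynomial S))) :
    ∃ d : ℕ, M ≤ Submodule.span (Polynomial S)
      (Set.range fun u : lat d M => Phi d (emb (u : Fin (d + 1) × J → S))) := by
  obtain ⟨N, hN⟩ := monotone_stabilizes_iff_noetherian.2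
    (inferInstance : IsNoetherian S (J → S)) ⟨lead M, lead_mono M⟩
  have hN' : ∀ m, N ≤ m → lead M N = lead M m := hN
  refine ⟨N, ?_⟩
  set G := Submodule.span (Polynomial S)
    (Set.range fun u : lat N M => Phi N (emb (u : Fin (N + 1) × J → S))) with hG
  have hbase : ∀ w, win M N w → w ∈ G := by
    intro w hw
    obtain ⟨u, hu⟩ := exists_lat_of_win hw
    exact Submodule.subset_span ⟨u, hu⟩
  have hstep : ∀ r : ℕ, ∀ w, win M (N + r) w → w ∈ G := by
    intro r
    induction r with
    | zero => exact hbase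
    | succ r ih =>
      intro w hw
      have h1 : cf w (N + (r + 1)) ∈ lead M (N + (r + 1)) := ⟨w, hw, rfl⟩
      rw [← hN' _ (by omega)] at h1
      obtain ⟨w', hw', h2⟩ := h1
      have h3 : win M (N + r) (w - (Polynomial.X : (Polynomial S)) ^ (r + 1) • w') := by
        refine ⟨M.sub_mem hw.1 (M.smul_mem _ hw'.1), fun k hk => ?_⟩
        rw [cf_sub, cf_pow_smul]
        by_cases hk2 : k = N + (r + 1)
        · subst hk2
          rw [if_pos (by omega), Nat.add_sub_cancel, h2, sub_self]
        · rw [hw.2 k (by omega), if_pos (by omega), hw'.2 _ (by omega), sub_self]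
      have h4 := ih _ h3
      have h5 := G.add_mem h4 (G.smul_mem ((Polynomial.X : (Polynomial S)) ^ (r + 1)) (hbase _ hw'))
      simpa using h5
  intro w hw
  obtain ⟨r, hwin⟩ := exists_window w
  exact hstep r w ⟨hw, fun k hk => hwin k (by omega)⟩

end

theorem exists_hasRes (hS : IsRegularRing S) {J : Type} [Finite J] (M : Submodule (Polynomial S) (J → (Polynomial S))) :
    ∃ n : ℕ, HasRes (cX S) n M := by
  have hN : IsNoetherianRing S := hS.1
  obtain ⟨d, hd⟩ := exists_gen M
  obtain ⟨n1, h1⟩ := hS.hasRes (lat d M)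
  obtain ⟨n2, h2⟩ := hS.hasRes (lat0 d M)
  exact ⟨_, hasRes_of_lat d hd (h1.mono (le_max_left n1 n2)) (h2.mono (le_max_right n1 n2))⟩

theorem isNoetherianRing (hS : IsRegularRing S) : IsNoetherianRing (Polynomial S) := by
  have h1 : IsNoetherian (Polynomial S) (Fin 1 → (Polynomial S)) := by
    refine ⟨fun M => ?_⟩
    obtain ⟨n, hn⟩ := exists_hasRes hS M
    have := hn.finite
    exact Module.Finite.iff_fg.1 this
  exact isNoetherian_of_linearEquiv (LinearEquiv.funUnique (Fin 1) (Polynomial S) (Polynomial S))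

end PolX

/-- A polynomial ring over a regular ring is regular. -/
theorem IsRegularRing.polynomial {S : Type u} [Ring S] (hS : IsRegularRing S) :
    IsRegularRing (Polynomial S) :=
  isRegularRing_of_hasRes (φ := PolX.cX S) (PolX.isNoetherianRing hS)
    fun _ M => PolX.exists_hasRes hS M

/-- `K₀(S) → K₀(S[X])` is surjective for a regular ring `S`. -/
theorem IsRegularRing.surjective_kZero_C {S : Type u} [Ring S] (hS : IsRegularRing S) :
    Function.Surjective (KZero.map (Polynomial.C : S →+* Polynomial S)) := by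
  apply map_surjective_of_forall
  intro m e he
  obtain ⟨n, hn⟩ := PolX.exists_hasRes hS (img e)
  have := img_projective he
  exact hn.good.stabInd he (LinearEquiv.refl _ _)

end Pool.Agent.Lib.MP_c052b4_al
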