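import Pool.Agent.Lib.MP_c052b4_al.Mg.G094

/-!
# `K_i`-regularity, `i ≤ 1`: polynomial rings in several variables
-/

set_option autoImplicit false
set_option linter.unusedSectionVars false

namespace Pool.Agent.Lib.MP_c052b4_al

open Polynomial

universe u v w

section MvPol

variable (S : Type u) [Ring S] (m : ℕ)

/-- the polynomial ring in `m` variables -/
abbrev PolN : Type u := AddMonoidAlgebra S (Fin m →₀ ℕ)

/-- the inclusion of the constants -/
noncomputable abbrev cN : S →+* PolN S m := AddMonoidAlgebra.singleZeroRingHom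

/-- splitting off the first exponent -/
noncomputable def finSuccAdd : (Fin (m + 1) →₀ ℕ) ≃+ ℕ × (Fin m →₀ ℕ) where
  toFun f := (f 0, f.tail)
  invFun p := Finsupp.cons p.1 p.2
  left_inv f := Finsupp.cons_tail f
  right_inv p := by
    simp
  map_add' f g := by
    refine Prod.ext rfl ?_
    ext i
    rfl

/-- `S[X_1, …, X_{m+1}] = S[X_1, …, X_m][X]` -/
noncomputable def succIso : PolN S (m + 1) ≃+* Polynomial (PolN S m) :=
  (AddMonoidAlgebra.mapDomainRingEquiv S (finSuccAdd m)).trans
    (AddMonoidAlgebra.curryRingEquiv.trans (Polynomial.toFinsuppIso (PolN S m)).symm)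

theorem succIso_c : ((succIso S m : PolN S (m + 1) ≃+* Polynomial (PolN S m)) :
    PolN S (m + 1) →+* Polynomial (PolN S m)).comp (cN S (m + 1)) =
      (Polynomial.C : PolN S m →+* Polynomial (PolN S m)).comp (cN S m) := by
  apply RingHom.ext
  intro a
  change (Polynomial.toFinsuppIso (PolN S m)).symm (AddMonoidAlgebra.curryRingEquiv
    (AddMonoidAlgebra.mapDomainRingEquiv S (finSuccAdd m) (AddMonoidAlgebra.single 0 a))) =
      Polynomial.C (AddMonoidAlgebra.single 0 a)
  rw [RingEquiv.symm_apply_eq, Polynomial.toFinsuppIso_apply, Polynomial.toFinsupp_C]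
  have h1 : AddMonoidAlgebra.mapDomainRingEquiv S (finSuccAdd m) (AddMonoidAlgebra.single 0 a) =
      AddMonoidAlgebra.single (0, 0) a := by
    simp
    rfl
  rw [h1]
  exact AddMonoidAlgebra.curryRingEquiv_single ..

theorem cN_zero_bijective : Function.Bijective (cN S 0) := by
  constructor
  · intro a b h
    have := congrArg (fun x : PolN S 0 => x.coeff 0) h
    simpa using this
  · intro x
    refine ⟨x.coeff 0, ?_⟩
    apply AddMonoidAlgebra.ext
    apply Finsupp.ext
    intro i
    have hi : i = 0 := Subsingleton.elim _ _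
    subst hi
    simp

end MvPol

section Functor

theorem AbFunctor.bijective_of_equiv (F : AbFunctor.{u}) {S T : Type u} [Ring S] [Ring T]
    (e : S ≃+* T) : Function.Bijective (F.map (e : S →+* T)) := by
  refine ⟨F.injective_of_retraction _ (e.symm : T →+* S) ?_, F.surjective_of_equiv e⟩
  apply RingHom.ext
  intro x
  exact e.symm_apply_apply x

theorem AbFunctor.bijective_of_bijective (F : AbFunctor.{u}) {S T : Type u} [Ring S] [Ring T]
    (f : S →+* T) (hf : Function.Bijective f) : Function.Bijective (F.map f) := by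
  have h : ((RingEquiv.ofBijective f hf : S ≃+* T) : S →+* T) = f := RingHom.ext fun _ => rfl
  rw [← h]
  exact F.bijective_of_equiv _

theorem QR.of_equiv {H : Type v} [Group H] {S S' : Type (max u v)} [Ring S] [Ring S']
    (h : QR.{u} H S) (e : S' ≃+* S) : QR.{u} H S' := by
  obtain ⟨R, _, hR, ⟨e'⟩⟩ := h
  exact ⟨R, inferInstance, hR, ⟨e.trans e'⟩⟩

theorem QR.polynomial {H : Type v} [Group H] {S : Type (max u v)} [Ring S] (h : QR.{u} H S) :
    QR.{u} H (Polynomial S) := by
  obtain ⟨R, _, hR, ⟨e⟩⟩ := h
  refine ⟨Pol R, inferInstance, hR.polynomial.of_ringEquiv (polIso R), ⟨?_⟩⟩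
  exact (polIso S).trans
    ((MonoidAlgebra.mapRingEquiv (Multiplicative ℕ) e).trans MonoidAlgebra.commRingEquiv)

/-- The induction on the number of variables. -/
theorem bijective_cN (F : AbFunctor.{max u v}) {H : Type v} [Group H]
    (hF : ∀ (S : Type (max u v)) [Ring S], QR.{u} H S →
      Function.Bijective (F.map (Polynomial.C : S →+* Polynomial S)))
    {S : Type (max u v)} [Ring S] (hS : QR.{u} H S) (m : ℕ) :
    QR.{u} H (PolN S m) ∧ Function.Bijective (F.map (cN S m)) := by
  induction m with
  | zero =>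
    exact ⟨hS.of_equiv (RingEquiv.ofBijective (cN S 0) (cN_zero_bijective S)).symm,
      F.bijective_of_bijective _ (cN_zero_bijective S)⟩
  | succ m ih =>
    obtain ⟨h1, h2⟩ := ih
    refine ⟨h1.polynomial.of_equiv (succIso S m), ?_⟩
    have h3 : Function.Bijective (F.map (((succIso S m : PolN S (m + 1) ≃+*
        Polynomial (PolN S m)) : PolN S (m + 1) →+* Polynomial (PolN S m)).comp
          (cN S (m + 1)))) := by
      rw [succIso_c]
      have h4 := (hF _ h1).comp h2
      convert h4 using 1
      funext x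
      exact (F.map_map _ _ x).symm
    have h5 := F.bijective_of_equiv (succIso S m)
    refine (Function.Bijective.of_comp_iff' h5 _).1 ?_
    convert h3 using 1
    funext x
    exact F.map_map _ _ x

end Functor

theorem NV1.bijective_kOne_cN {H : Type v} [Group H] (hH : NV1.{u} H) {R : Type u} [Ring R]
    (hR : IsRegularRing R) (m : ℕ) :
    Function.Bijective (KOne.map (cN (MonoidAlgebra R H) m)) :=
  (bijective_cN K1Fun (fun _ _ h =>
    ⟨K1Fun.injective_of_retraction _ _ (constantCoeff_C _), (K1Fun.surPol_iff _).1 (hH.qr h)⟩)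
      (QR.self hR) m).2

theorem NV1.bijective_kMinus_cN {H : Type v} [Group H] (hH : NV1.{u} H) {R : Type u} [Ring R]
    (hR : IsRegularRing R) (n m : ℕ) :
    Function.Bijective ((KMinus n).map (cN (MonoidAlgebra R H) m)) :=
  (bijective_cN (KMinus n) (fun _ _ h =>
    ⟨(KMinus n).injective_of_retraction _ _ (constantCoeff_C _),
      ((KMinus n).surPol_iff _).1 (hH.kMinus n h)⟩) (QR.self hR) m).2

end Pool.Agent.Lib.MP_c052b4_al
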