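import Pool.Agent.Lib.MP_c052b4_al.Mg.G067

/-!
# `K₁(S) → K₁(S[X])` when class functions vanish on nilpotent matrices
-/

set_option autoImplicit false
set_option linter.unusedSectionVars false

namespace Pool.Agent.Lib.MP_c052b4_al

open Matrix Polynomial

universe u v w

/-- all class functions vanish on nilpotent matrices -/
def NilZ (S : Type u) [Ring S] : Prop :=
  ∀ {B : Type u} [AddCommGroup B] (K : KF S B) {ι : Type} [Fintype ι] [DecidableEq ι]
    (N : Matrix ι ι S), IsNilpotent N → K.k N = 0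

section Comap

variable {S : Type u} {T : Type v} [Ring S] [Ring T] {B : Type w} [AddCommGroup B]

/-- pulling back a class function along a ring homomorphism -/
def KF.comap (f : S →+* T) (K : KF T B) : KF S B where
  k M := K.k (M.map f)
  zero := by
    intro n _ _
    rw [Matrix.map_zero _ (map_zero f), K.zero]
  comm X Y := by rw [Matrix.map_mul, Matrix.map_mul, K.comm]
  add := by
    intro n _ _ Z X hZ hX h
    have e : ∀ M : Matrix n n S, f.mapMatrix M = M.map f := fun _ => rfl
    rw [Matrix.map_add _ (map_add f)]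
    refine K.add _ _ ?_ ?_ ?_
    · rw [← e]; exact hZ.map f.mapMatrix
    · rw [← e]; exact hX.map f.mapMatrix
    · rw [← Matrix.map_mul, h, Matrix.map_zero _ (map_zero f)]

end Comap

theorem NilZ.of_equiv {S T : Type u} [Ring S] [Ring T] (e : S ≃+* T) (h : NilZ T) : NilZ S := by
  intro B _ K ι _ _ N hN
  have h1 := h (K.comap (e.symm : T →+* S)) (N.map e) (by
    have : (e : S →+* T).mapMatrix N = N.map e := rfl
    rw [← this]
    exact hN.map (e : S →+* T).mapMatrix)
  change K.k ((N.map e).map (e.symm : T →+* S)) = 0 at h1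
  have h2 : (N.map e).map (e.symm : T →+* S) = N := by
    ext i j
    simp
  rwa [h2] at h1

section One

variable {S : Type u} [Ring S]

/-- polynomials of degree at most one -/
def linPol (S : Type u) [Ring S] : AddSubgroup S[X] where
  carrier := {f | ∃ a b : S, f = C a + X * C b}
  zero_mem' := ⟨0, 0, by simp⟩
  add_mem' := by
    rintro _ _ ⟨a, b, rfl⟩ ⟨a', b', rfl⟩
    exact ⟨a + a', b + b', by rw [C_add, C_add, mul_add]; abel⟩
  neg_mem' := by
    rintro _ ⟨a, b, rfl⟩
    exact ⟨-a, -b, by rw [C_neg, C_neg, mul_neg]; abel⟩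

theorem one_mem_linPol : (1 : S[X]) ∈ linPol S := ⟨1, 0, by simp⟩

theorem mem_closure_linPol (f : S[X]) : f ∈ Subring.closure (linPol S : Set S[X]) := by
  have hC : ∀ a : S, C a ∈ Subring.closure (linPol S : Set S[X]) := fun a =>
    Subring.subset_closure ⟨a, 0, by simp⟩
  have hX : (X : S[X]) ∈ Subring.closure (linPol S : Set S[X]) :=
    Subring.subset_closure ⟨0, 1, by simp⟩
  induction f using Polynomial.induction_on' with
  | add p q hp hq => exact Subring.add_mem _ hp hq
  | monomial n a =>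
    rw [← C_mul_X_pow_eq_monomial]
    exact Subring.mul_mem _ (hC a) (Subring.pow_mem _ hX n)

theorem X_comm_C (x : S) : (X : S[X]) * (C : S →+* S[X]) x = (C : S →+* S[X]) x * X :=
  (X_mul_C x)

/-- a unit `1 + X N` has a nilpotent matrix `N` -/
theorem isNilpotent_of_isUnit {ι : Type} [Fintype ι] [DecidableEq ι] (N : Matrix ι ι S)
    (h : IsUnit (1 + (X : S[X]) • N.map (C : S →+* S[X]))) : IsNilpotent N := by
  obtain ⟨U, hU⟩ := h
  set V : Matrix ι ι S[X] := ((U⁻¹ : (Matrix ι ι S[X])ˣ) : Matrix ι ι S[X]) with hV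
  have h1 : (1 + (X : S[X]) • N.map (C : S →+* S[X])) * V = 1 := by
    rw [← hU, hV, Units.mul_inv]
  let W : ℕ → Matrix ι ι S := fun k => Matrix.of fun i j => (V i j).coeff k
  have hW : ∀ k i j, W k i j = (V i j).coeff k := fun _ _ _ => rfl
  have h2 : ∀ k, W (k + 1) = -(N * W k) := by
    intro k
    ext i j
    have h3 := congrArg (fun M : Matrix ι ι S[X] => (M i j).coeff (k + 1)) h1
    simp only [Matrix.add_mul, Matrix.one_mul, Matrix.add_apply, Matrix.smul_mul,
      Matrix.smul_apply, smul_eq_mul, coeff_add, coeff_X_mul] at h3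
    rw [Matrix.mul_apply, finsetSum_coeff] at h3
    have h4 : ((1 : Matrix ι ι S[X]) i j).coeff (k + 1) = 0 := by
      rw [Matrix.one_apply]
      split_ifs
      · rw [coeff_one]
        simp
      · simp
    rw [h4] at h3
    rw [hW, Matrix.neg_apply, Matrix.mul_apply, eq_neg_iff_add_eq_zero, ← h3]
    congr 1
    refine Finset.sum_congr rfl fun l _ => ?_
    rw [Matrix.map_apply, coeff_C_mul, hW]
  have h0 : W 0 = 1 := by
    ext i j
    have h3 := congrArg (fun M : Matrix ι ι S[X] => (M i j).coeff 0) h1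
    simp only [Matrix.add_mul, Matrix.one_mul, Matrix.add_apply, Matrix.smul_mul,
      Matrix.smul_apply, smul_eq_mul, coeff_add, mul_coeff_zero, coeff_X_zero, zero_mul,
      add_zero] at h3
    rw [hW, h3, Matrix.one_apply, Matrix.one_apply]
    split_ifs
    · rw [coeff_one]; simp
    · simp
  have h5 : ∀ k, W k = (-N) ^ k := by
    intro k
    induction k with
    | zero => rw [h0, pow_zero]
    | succ k ih => rw [h2, ih, pow_succ', neg_mul]
  obtain ⟨d, hd⟩ : ∃ d : ℕ, ∀ i j, (V i j).natDegree < d := by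
    refine ⟨(Finset.univ.sup fun i => Finset.univ.sup fun j => (V i j).natDegree) + 1, ?_⟩
    intro i j
    refine Nat.lt_succ_of_le ?_
    exact (Finset.le_sup (f := fun j => (V i j).natDegree) (Finset.mem_univ j)).trans
      (Finset.le_sup (f := fun i => Finset.univ.sup fun j => (V i j).natDegree)
        (Finset.mem_univ i))
  have h6 : (-N) ^ d = 0 := by
    rw [← h5]
    ext i j
    rw [hW, coeff_eq_zero_of_natDegree_lt (hd i j)]
    rfl
  have h7 : IsNilpotent (-N) := ⟨d, h6⟩
  have h8 := h7.neg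
  rwa [neg_neg] at h8

/-- **Higman's trick.** -/
theorem surjective_kOne_C (h : NilZ S) :
    Function.Surjective (KOne.map (C : S →+* S[X])) := by
  intro z
  obtain ⟨k, B, rfl⟩ := exists_k1 z
  obtain ⟨n, A, hA, hAB⟩ := lz_of_closure one_mem_linPol B fun i j => mem_closure_linPol _
  choose P Q hPQ using hA
  have hA1 : (A : Matrix (Fin n) (Fin n) S[X]) =
      (Matrix.of P).map (C : S →+* S[X]) + (X : S[X]) • (Matrix.of Q).map (C : S →+* S[X]) := by
    ext1 i j
    rw [hPQ i j]
    rfl
  -- the value at zero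
  let A0 : (Matrix (Fin n) (Fin n) S)ˣ := mU (constantCoeff : S[X] →+* S) A
  have hA0 : (A0 : Matrix (Fin n) (Fin n) S) = Matrix.of P := by
    change (A : Matrix (Fin n) (Fin n) S[X]).map (constantCoeff : S[X] →+* S) = _
    rw [hA1]
    ext i j
    simp
  let N : Matrix (Fin n) (Fin n) S := ((A0⁻¹ : (Matrix (Fin n) (Fin n) S)ˣ) :
    Matrix (Fin n) (Fin n) S) * Matrix.of Q
  have hN : (mU (C : S →+* S[X]) A0 : Matrix (Fin n) (Fin n) S[X]) *
      (1 + (X : S[X]) • N.map (C : S →+* S[X])) = A := by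
    rw [coe_mU, Matrix.mul_add, Matrix.mul_one, hA1, hA0]
    congr 1
    rw [map_mul_smul X_comm_C]
    congr 2
    change (Matrix.of P) * (((A0⁻¹ : (Matrix (Fin n) (Fin n) S)ˣ) :
      Matrix (Fin n) (Fin n) S) * Matrix.of Q) = Matrix.of Q
    rw [← hA0, ← Matrix.mul_assoc, Units.mul_inv, Matrix.one_mul]
  let U : (Matrix (Fin n) (Fin n) S[X])ˣ := (mU (C : S →+* S[X]) A0)⁻¹ * A
  have hU : (U : Matrix (Fin n) (Fin n) S[X]) = 1 + (X : S[X]) • N.map (C : S →+* S[X]) := by
    change ((mU (C : S →+* S[X]) A0)⁻¹ : (Matrix (Fin n) (Fin n) S[X])ˣ) *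
      (A : Matrix (Fin n) (Fin n) S[X]) = _
    rw [← hN, ← Matrix.mul_assoc, Units.inv_mul, Matrix.one_mul]
  have hnil : IsNilpotent N := isNilpotent_of_isUnit N ⟨U, hU⟩
  have h1 := h (KF.ks (C : S →+* S[X]) X X_comm_C) N hnil
  change kk ((X : S[X]) • N.map (C : S →+* S[X])) = 0 at h1
  rw [kk_eq U hU] at h1
  have h2 : A = mU (C : S →+* S[X]) A0 * U := by
    change A = mU (C : S →+* S[X]) A0 * ((mU (C : S →+* S[X]) A0)⁻¹ * A)
    rw [mul_inv_cancel_left]
  refine ⟨k1 A0, ?_⟩
  rw [KOne.map_k1, ← hAB, h2, k1_mul, h1, add_zero]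

end One

end Pool.Agent.Lib.MP_c052b4_al
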